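import Pool.Agent.helper17.EXT.Spec

/-!
# Project EXT, row CLF: a singular plane of long root vectors
-/

set_option autoImplicit false

open Finset

namespace Pool.Agent.EXT

open Pool.Agent.EXC

/-- the three roots -/
def CLF_R : Fin 3 → (Fin 6 → ℤ) := ![th, th - sr 1, th - sr 1 - sr 3]

theorem CLF_ip (i j : Fin 3) : ip C6 (CLF_R i) (CLF_R j) = if i = j then 2 else 1 := by
  revert i j
  decide +kernel

theorem CLF_fin : ∀ i : Fin 3, i + 1 ≠ i ∧ i + 2 ≠ i ∧ (∀ k, k = i ∨ k = i + 1 ∨ k = i + 2) ∧ i + 1 ≠ i + 2 := by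
  decide

theorem CLF_LR (i : Fin 3) : LR (CLF_R i) := by
  refine ⟨by rw [CLF_ip, if_pos rfl], ?_⟩
  revert i
  decide +kernel

section
variable {K : Type} [Field K]

theorem CLF_pln (c : Fin 3 → K) : pln c = ∑ i, c i • (E C6 (CLF_R i) : Lm C6 K) := by
  rw [Fin.sum_univ_three]
  rfl

theorem CLF_add (c d : Fin 3 → K) : pln (c + d) = pln c + pln d := by
  rw [CLF_pln, CLF_pln, CLF_pln, ← Finset.sum_add_distrib]
  exact Finset.sum_congr rfl fun i _ => by rw [Pi.add_apply, add_smul]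

theorem CLF_smul (a : K) (c : Fin 3 → K) : pln (a • c) = a • pln c := by
  rw [CLF_pln, CLF_pln, Finset.smul_sum]
  exact Finset.sum_congr rfl fun i _ => by rw [Pi.smul_apply, smul_eq_mul, mul_smul]

theorem CLF_single (i : Fin 3) : pln (Pi.single i 1 : Fin 3 → K) = E C6 (CLF_R i) := by
  rw [CLF_pln, Finset.sum_eq_single i]
  · rw [Pi.single_eq_same, one_smul]
  · intro j _ hj
    rw [Pi.single_eq_of_ne hj, zero_smul]
  · intro h
    exact absurd (Finset.mem_univ _) h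

theorem CLF_tv (hSGR : SGR_stmt) (τ : K ≃+* K) (hτ : ∀ x, τ (τ x) = x) (i j : Fin 3) (hij : i ≠ j) (t : K) (ht : τ t = t) :
    ∃ g ∈ GS τ, ∀ c : Fin 3 → K, g (pln c) = pln (c + (c j * t) • Pi.single i 1) := by
  have hji : j ≠ i := fun h => hij h.symm
  have h2 : ip C6 (CLF_R i - CLF_R j) (CLF_R i - CLF_R j) = 2 := by
    rw [ip_sub_left, ip_sub_right, ip_sub_right, CLF_ip, CLF_ip, CLF_ip, CLF_ip, if_pos rfl, if_pos rfl, if_neg hij,
      if_neg hji]
    norm_num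
  have hL : LR (CLF_R i - CLF_R j) := by
    refine ⟨h2, ?_⟩
    have e1 := (CLF_LR i).2
    have e2 := (CLF_LR j).2
    funext k
    have f1 := congrFun e1 k
    have f2 := congrFun e2 k
    change CLF_R i (pn k) - CLF_R j (pn k) = CLF_R i k - CLF_R j k
    change CLF_R i (pn k) = CLF_R i k at f1
    change CLF_R j (pn k) = CLF_R j k at f2
    rw [f1, f2]
  have hjj : ip C6 (CLF_R i - CLF_R j) (CLF_R j) = -1 := by
    rw [ip_sub_left, CLF_ip, CLF_ip, if_pos rfl, if_neg hij]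
    norm_num
  set s : ℤ := sg C6 (CLF_R i - CLF_R j) (CLF_R j) with hs
  have hss : (s : K) * (s : K) = 1 := sg_sq C6 _ _
  have ht' : τ (t * (s : K)) = t * (s : K) := by rw [map_mul, ht, map_intCast]
  obtain ⟨g, hg, hgX⟩ := (hSGR K τ hτ).2.1 (CLF_R i - CLF_R j) (t * (s : K)) hL ht'
  obtain ⟨a1, a2, -⟩ := f_ACT 6 C6 K (CLF_R i - CLF_R j) (t * (s : K)) h2
  refine ⟨g, hg, fun c => ?_⟩
  have hgj : g (E C6 (CLF_R j)) = (E C6 (CLF_R j) + t • E C6 (CLF_R i) : Lm C6 K) := by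
    rw [hgX, a2 _ (CLF_LR j).1 hjj, ← hs, sub_add_cancel, mul_assoc, hss, mul_one]
  have hgk : ∀ k, k ≠ j → g (E C6 (CLF_R k)) = (E C6 (CLF_R k) : Lm C6 K) := by
    intro k hk
    rw [hgX]
    refine a1 _ (CLF_LR k).1 ?_
    rw [ip_sub_left, CLF_ip, CLF_ip, if_neg (Ne.symm hk)]
    split_ifs <;> norm_num
  rw [CLF_add, CLF_smul, CLF_single, CLF_pln, map_sum]
  have h3 : ∀ k ∈ (Finset.univ : Finset (Fin 3)), g (c k • (E C6 (CLF_R k) : Lm C6 K)) =
      c k • (E C6 (CLF_R k) : Lm C6 K) + if k = j then (c j * t) • (E C6 (CLF_R i) : Lm C6 K) else 0 := by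
    intro k _
    rw [map_smul]
    by_cases hk : k = j
    · rw [if_pos hk, hk, hgj, smul_add, smul_smul]
    · rw [if_neg hk, hgk k hk, add_zero]
  rw [Finset.sum_congr rfl h3, Finset.sum_add_distrib, Finset.sum_ite_eq', if_pos (Finset.mem_univ _)]

theorem CLF_gen (hSGR : SGR_stmt) (τ : K ≃+* K) (hτ : ∀ x, τ (τ x) = x) (i : Fin 3) (w : Fin 3 → K) (hw : ∀ k, τ (w k) = w k)
    (hwi : w i = 0) : ∃ g ∈ GS τ, ∀ v : Fin 3 → K, g (pln v) = pln (v + v i • w) := by
  obtain ⟨n1, n2, n3, n4⟩ := CLF_fin i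
  obtain ⟨g1, hg1, h1⟩ := CLF_tv hSGR τ hτ (i + 1) i n1 (w (i + 1)) (hw _)
  obtain ⟨g2, hg2, h2⟩ := CLF_tv hSGR τ hτ (i + 2) i n2 (w (i + 2)) (hw _)
  refine ⟨g1 * g2, mul_mem hg1 hg2, fun v => ?_⟩
  change g1 (g2 (pln v)) = _
  rw [h2, h1]
  congr 1
  funext k
  simp only [Pi.add_apply, Pi.smul_apply, smul_eq_mul, Pi.single_apply]
  rcases n3 k with h | h | h
  · rw [h, hwi, if_neg (Ne.symm n1), if_neg (Ne.symm n2)]
    ring
  · rw [h, if_neg n4, if_pos rfl, if_neg (Ne.symm n2)]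
    ring
  · rw [h, if_pos rfl, if_neg (Ne.symm n4), if_neg (Ne.symm n2)]
    ring

theorem CLF_red (hSGR : SGR_stmt) (τ : K ≃+* K) (hτ : ∀ x, τ (τ x) = x) (i : Fin 3) (c : Fin 3 → K) (hc : ∀ k, τ (c k) = c k)
    (hci : c i ≠ 0) : ∃ g ∈ GS τ, ∀ v : Fin 3 → K, g (pln v) = pln (v + v i • (Pi.single i 1 - (c i)⁻¹ • c)) := by
  refine CLF_gen hSGR τ hτ i _ (fun k => ?_) ?_
  · simp only [Pi.sub_apply, Pi.smul_apply, smul_eq_mul, Pi.single_apply, map_sub, map_mul, map_inv₀, hc]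
    split_ifs <;> simp
  · simp only [Pi.sub_apply, Pi.smul_apply, smul_eq_mul, Pi.single_eq_same]
    rw [inv_mul_cancel₀ hci, sub_self]

theorem CLF_red_self (i : Fin 3) (c : Fin 3 → K) (hci : c i ≠ 0) :
    c + c i • (Pi.single i 1 - (c i)⁻¹ • c) = c i • (Pi.single i 1 : Fin 3 → K) := by
  rw [smul_sub, smul_smul, mul_inv_cancel₀ hci, one_smul]
  abel

end

/-- Row CLF. -/
theorem CLF (hLST : LST_stmt) (hRTF : RTF_stmt) (hWST : WST_stmt) (hWPS : WPS_stmt) (hSGR : SGR_stmt) (hESF : ESF_stmt) (hTFS : TFS_stmt) : CLF_stmt := by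
  intro K _ τ hτ
  have hinvX : ∀ (g : Lm C6 K ≃ₗ[K] Lm C6 K) (a b : Lm C6 K), g a = b → g⁻¹ b = a := by
    intro g a b h
    rw [← h]
    exact LinearEquiv.symm_apply_apply g a
  refine ⟨?_, ?_, ?_⟩
  · intro c hc hne
    obtain ⟨i, hi⟩ : ∃ i, c i ≠ 0 := by
      by_contra hcon
      push Not at hcon
      exact hne (funext hcon)
    obtain ⟨g, hg, h⟩ := CLF_red hSGR τ hτ i c hc hi
    have h1 := h c
    rw [CLF_red_self i c hi, CLF_smul, CLF_single] at h1
    have h2 := hinvX g _ _ h1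
    rw [← h2]
    obtain ⟨e1, e2⟩ := hESF K τ hτ
    have h3 := (e2 _ (e1 _ (CLF_LR i))).2.2.2.2.1 (c i) (hc i) hi
    exact (e2 _ h3).2.2.2.1 _ (inv_mem hg)
  · intro c d hc hd hind
    have hne : c ≠ 0 := by
      have := hind.ne_zero 0
      simpa using this
    obtain ⟨i, hi⟩ : ∃ i, c i ≠ 0 := by
      by_contra hcon
      push Not at hcon
      exact hne (funext hcon)
    obtain ⟨g, hg, h⟩ := CLF_red hSGR τ hτ i c hc hi
    set w : Fin 3 → K := Pi.single i 1 - (c i)⁻¹ • c with hw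
    have hwf : ∀ k, τ (w k) = w k := by
      intro k
      rw [hw]
      simp only [Pi.sub_apply, Pi.smul_apply, smul_eq_mul, Pi.single_apply, map_sub, map_mul, map_inv₀, hc]
      split_ifs <;> simp
    have hwi : w i = 0 := by
      rw [hw]
      simp only [Pi.sub_apply, Pi.smul_apply, smul_eq_mul, Pi.single_eq_same]
      rw [inv_mul_cancel₀ hi, sub_self]
    set d' : Fin 3 → K := d + d i • w with hd'
    have hd'f : ∀ k, τ (d' k) = d' k := by
      intro k
      rw [hd']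
      simp only [Pi.add_apply, Pi.smul_apply, smul_eq_mul, map_add, map_mul, hd, hwf]
    obtain ⟨j, hj, hjn⟩ : ∃ j, j ≠ i ∧ d' j ≠ 0 := by
      by_contra hcon
      push Not at hcon
      have h1 : d = (d i * (c i)⁻¹) • c := by
        funext k
        by_cases hk : k = i
        · rw [hk, Pi.smul_apply, smul_eq_mul, mul_assoc, inv_mul_cancel₀ hi, mul_one]
        · have h2 := hcon k hk
          rw [hd', hw] at h2
          simp only [Pi.add_apply, Pi.sub_apply, Pi.smul_apply, smul_eq_mul, Pi.single_eq_of_ne hk, zero_sub] at h2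
          rw [Pi.smul_apply, smul_eq_mul]
          linear_combination h2
      have h3 := LinearIndependent.pair_iff.1 hind (d i * (c i)⁻¹) (-1) (by
        rw [← h1, neg_one_smul, add_neg_cancel])
      exact one_ne_zero (neg_eq_zero.1 h3.2)
    obtain ⟨g', hg', h'⟩ := CLF_red hSGR τ hτ j d' hd'f hjn
    have k1 : (g' * g) (pln c) = c i • E C6 (CLF_R i) := by
      change g' (g (pln c)) = _
      rw [h c, CLF_red_self i c hi, h']
      have h1 : (c i • (Pi.single i 1 : Fin 3 → K)) j = 0 := by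
        rw [Pi.smul_apply, Pi.single_eq_of_ne hj, smul_zero]
      rw [h1, zero_smul, add_zero, CLF_smul, CLF_single]
    have k2 : (g' * g) (pln d) = d' j • E C6 (CLF_R j) := by
      change g' (g (pln d)) = _
      rw [h d, ← hd', h', CLF_red_self j d' hjn, CLF_smul, CLF_single]
    -- the type of the pair of root vectors
    have hT : TpS τ (E C6 (CLF_R i) : Lm C6 K) (E C6 (CLF_R j)) 1 := by
      have hip : ip C6 (CLF_R i) (CLF_R j) = ip C6 th (CLF_R 1) := by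
        have h1 : ip C6 th (CLF_R 1) = 1 := CLF_ip 0 1
        rw [h1, CLF_ip, if_neg (Ne.symm hj)]
      have hW := hWST.1 _ _ _ _ (CLF_LR i) (CLF_LR j) (CLF_LR 0) (CLF_LR 1) hip
      obtain ⟨k, hk, s, s', hs, hs', e1, e2⟩ := hWPS K τ hτ _ _ _ _ (CLF_LR i).1 (CLF_LR j).1 hW
      have hsF : ∀ s : ℤ, (s = 1 ∨ s = -1) → ((s : K)) ≠ 0 := by
        rintro s (rfl | rfl) <;> simp
      exact ⟨k, hk, CLF_R 1, CLF_LR 1, CLF_ip 0 1, (s : K), (s' : K), map_intCast τ s, map_intCast τ s', hsF s hs, hsF s' hs',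
        e1, e2⟩
    have hT2 := (hTFS K τ hτ _ _ _ hT).2.2.2.2.1 (c i) (d' j) (hc i) (hd'f j) hi hjn
    have hT3 := (hTFS K τ hτ _ _ _ hT2).2.2.2.1 _ (inv_mem (mul_mem hg' hg))
    rw [hinvX _ _ _ k1, hinvX _ _ _ k2] at hT3
    exact hT3
  · -- additivity
    obtain ⟨ex1, ex2, -⟩ : (∀ α, ip C6 α α = 2 → Ex C6 (E C6 α : Lm C6 K)) ∧
        (∀ a : Lm C6 K, Ex C6 a → Xtr C6 a) ∧ True := by
      obtain ⟨nb1, -⟩ := f_NBR 6 C6 1 th ![0, 2, 3, 4, 5] f_DE6.2
      obtain ⟨-, x1, x2, -⟩ := f_EXF 6 C6 K nb1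
      exact ⟨x1, fun a ha => (x2 a ha).1, trivial⟩
    have hP : ∀ i j, CL3_P C6 (E C6 (CLF_R i) : Lm C6 K) (E C6 (CLF_R j)) ∧
        ∀ u, fm C6 (E C6 (CLF_R i) : Lm C6 K) (br C6 (E C6 (CLF_R j)) u) = 0 := by
      intro i j
      have h0 : 1 ≤ ip C6 (CLF_R i) (CLF_R j) := by
        rw [CLF_ip]
        split_ifs <;> norm_num
      have hneg : CLF_R j ≠ -CLF_R i := by
        intro h
        have h1 := h0
        rw [h, ip_neg_right, (CLF_LR i).1] at h1
        norm_num at h1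
      have hneg' : CLF_R i ≠ -CLF_R j := by
        intro h
        apply hneg
        rw [h, neg_neg]
      have hz : ∀ a b : Fin 3, ip C6 (CLF_R a + CLF_R b) (CLF_R a + CLF_R b) ≠ 2 := by
        intro a b
        rw [ip_add_left, ip_add_right, ip_add_right, CLF_ip, CLF_ip, CLF_ip, CLF_ip]
        split_ifs <;> norm_num
      have hbr : ∀ a b : Fin 3, CLF_R b ≠ -CLF_R a → br C6 (E C6 (CLF_R a)) (E C6 (CLF_R b)) = (0 : Lm C6 K) := by
        intro a b hab
        rw [br_E_E C6 (CLF_LR a).1 (CLF_LR b).1, if_neg hab, E_eq_zero C6 (hz a b), smul_zero, sub_zero]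
      refine ⟨⟨?_, ?_, ?_⟩, ?_⟩
      · by_cases hij : i = j
        · subst hij
          intro u
          rw [(ex2 _ (ex1 _ (CLF_LR i).1)).sq u, two_mul, add_smul]
        · intro u
          rw [((f_COL 6 C6 K (CLF_R i) (CLF_R j) (CLF_LR i).1 (CLF_LR j).1).1 (by rw [CLF_ip, if_neg hij])).2 u, add_comm]
      · exact hbr i j hneg
      · rw [fm_E_E C6 (CLF_LR i).1 (CLF_LR j).1, if_neg hneg]
      · intro u
        have h2 := (ex2 _ (ex1 _ (CLF_LR j).1)).inv (E C6 (CLF_R i)) u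
        rw [hbr j i hneg', fm_zero_left] at h2
        exact neg_eq_zero.1 h2.symm
    have hpl : ∀ c : Fin 3 → K, pln c = c 0 • E C6 (CLF_R 0) + c 1 • E C6 (CLF_R 1) + c 2 • E C6 (CLF_R 2) := fun c => rfl
    have hPP : ∀ c d : Fin 3 → K, CL3_P C6 (pln c) (pln d) := by
      intro c d
      have key : ∀ i : Fin 3, CL3_P C6 (E C6 (CLF_R i) : Lm C6 K) (pln d) := by
        intro i
        rw [hpl d]
        exact CL3_P_add_right C6 _ _ _ (CL3_P_add_right C6 _ _ _ (CL3_P_smul_right C6 _ _ _ (hP i 0).1)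
          (CL3_P_smul_right C6 _ _ _ (hP i 1).1)) (CL3_P_smul_right C6 _ _ _ (hP i 2).1)
      rw [hpl c]
      exact CL3_P_add_left C6 _ _ _ (CL3_P_add_left C6 _ _ _ (CL3_P_smul_left C6 _ _ _ (key 0))
        (CL3_P_smul_left C6 _ _ _ (key 1))) (CL3_P_smul_left C6 _ _ _ (key 2))
    intro c d u
    have h1 := hPP c d
    have hinv : fm C6 (pln c) (br C6 (pln d) u) = 0 := by
      rw [hpl c, hpl d]
      simp only [br_add_left, br_smul_left, fm_add_left, fm_smul_left, fm_add_right, fm_smul_right, (hP _ _).2, mul_zero, add_zero]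
    rw [CLF_add]
    unfold xe
    simp only [one_smul, one_pow, one_mul, br_add_right, br_smul_right, fm_add_right, fm_smul_right, br_add_left, fm_add_left,
      h1.1, h1.2.1, h1.2.2, hinv, smul_zero, mul_zero, add_zero, add_smul, smul_add]
    abel

end Pool.Agent.EXT
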