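import Pool.Agent.helper17.EXT.SpecJ

/-!
# Project EXT (MP_561ff4_al), block J, row JGR: powers and conjugates
-/

set_option autoImplicit false

open Finset

namespace Pool.Agent.EXT

open Pool.Agent.EXC

theorem JGR_one {S : Type} [Group S] (x : MulAut S) (r k j : ℕ) (h : k ∈ Pool.Agent.GS.CSet r (x ^ j)) :
    k ∈ Pool.Agent.GS.CSet r x := by
  obtain ⟨hk, g, hg, hr⟩ := h
  refine ⟨hk, g, ?_, ?_⟩
  · intro i
    have h1 : Subgroup.closure (insert (x ^ j) (Set.range (MulAut.conj : S →* MulAut S))) ≤
        Subgroup.closure (insert x (Set.range (MulAut.conj : S →* MulAut S))) := by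
      rw [Subgroup.closure_le]
      intro y hy
      rcases hy with hy | hy
      · rw [hy]
        exact Subgroup.pow_mem _ (Subgroup.subset_closure (Set.mem_insert _ _)) j
      · exact Subgroup.subset_closure (Set.mem_insert_of_mem _ hy)
    exact h1 (hg i)
  · refine hr.trans ?_
    apply Subgroup.card_dvd_of_le
    rw [Subgroup.closure_le]
    rintro y ⟨i, rfl⟩
    have h1 : g i * x ^ j * (g i)⁻¹ = (g i * x * (g i)⁻¹) ^ j := by rw [conj_pow]
    change g i * x ^ j * (g i)⁻¹ ∈ Subgroup.closure (Set.range fun i => g i * x * (g i)⁻¹)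
    rw [h1]
    have h2 : g i * x * (g i)⁻¹ ∈ Subgroup.closure (Set.range fun i => g i * x * (g i)⁻¹) :=
      Subgroup.subset_closure (Set.mem_range_self i)
    exact Subgroup.pow_mem _ h2 j

theorem JGR : JGR_stmt := by
  intro S _ x r k
  refine ⟨fun j h => JGR_one x r k j h, ?_⟩
  intro c h
  obtain ⟨hk, g, hg, hr⟩ := h
  refine ⟨hk, fun i => g i * MulAut.conj c, ?_, ?_⟩
  · intro i
    have hc : (MulAut.conj c : MulAut S) ∈ Subgroup.closure (insert x (Set.range (MulAut.conj : S →* MulAut S))) :=
      Subgroup.subset_closure (Set.mem_insert_of_mem _ ⟨c, rfl⟩)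
    have hx : x ∈ Subgroup.closure (insert x (Set.range (MulAut.conj : S →* MulAut S))) :=
      Subgroup.subset_closure (Set.mem_insert _ _)
    have h1 : Subgroup.closure (insert (MulAut.conj c * x * (MulAut.conj c)⁻¹)
        (Set.range (MulAut.conj : S →* MulAut S))) ≤
        Subgroup.closure (insert x (Set.range (MulAut.conj : S →* MulAut S))) := by
      rw [Subgroup.closure_le]
      intro y hy
      rcases hy with hy | hy
      · rw [hy]
        exact Subgroup.mul_mem _ (Subgroup.mul_mem _ hc hx) (Subgroup.inv_mem _ hc)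
      · exact Subgroup.subset_closure (Set.mem_insert_of_mem _ hy)
    exact Subgroup.mul_mem _ (h1 (hg i)) hc
  · have h1 : (fun i => g i * MulAut.conj c * x * (g i * MulAut.conj c)⁻¹) =
        fun i => g i * (MulAut.conj c * x * (MulAut.conj c)⁻¹) * (g i)⁻¹ := by
      funext i
      rw [mul_inv_rev]
      simp only [mul_assoc]
    change r ∣ Nat.card (Subgroup.closure (Set.range fun i => g i * MulAut.conj c * x * (g i * MulAut.conj c)⁻¹))
    rw [h1]
    exact hr

end Pool.Agent.EXT
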